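import Pool.Agent.Helper8.DC.Main

/-!
Coefficients in a bundle `L` with fibre metric and metric connection: definitions.
-/

set_option autoImplicit false

open scoped Manifold ContDiff

namespace Pool.Agent.Helper8.DA

open Pool.Agent.Helper8.DC

noncomputable section

section Local

variable {N : ℕ}

/-- The curvature `G_lm = ∂_l B_m - ∂_m B_l + [B_l, B_m]` of the connection forms `B` (matrices):
`mcurv B y r t l m` is the entry `(r, t)` of `G_lm`. -/
def mcurv (B : E4 → Fin 4 → Matrix (Fin N) (Fin N) ℝ) (y : E4) (r t : Fin N) (l m : Fin 4) : ℝ :=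
  pd l (fun z => B z m r t) y - pd m (fun z => B z l r t) y + (B y l * B y m - B y m * B y l) r t

/-- Covariant derivative of a local section `s` of `L ⊗ E` (an `N`-tuple of functions with values
in `ℝ³`): `∇_m s_r = ∂_m s_r + A_m × s_r + ∑_t B_m(r,t) s_t`. -/
def covL (A : E4 → Fin 4 → R3) (B : E4 → Fin 4 → Matrix (Fin N) (Fin N) ℝ) (s : E4 → Fin N → R3)
    (y : E4) (r : Fin N) (m : Fin 4) : R3 :=
  cov A (fun z => s z r) y m + ∑ t, B y m r t • s y t

/-- The local `L`-valued 2-form `⟨s, F⟩`: its `r`-th component is `∑_a s_(r,a) F_a`. -/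
def formL (A : E4 → Fin 4 → R3) (s : E4 → Fin N → R3) (y : E4) (r : Fin N) (l m : Fin 4) : ℝ :=
  Bundle.form A (fun z => s z r) y l m

/-- The covariant derivative `∇_l η_mn` (with the connection `B` only) of an `L`-valued 2-form. -/
def dcov (B : E4 → Fin 4 → Matrix (Fin N) (Fin N) ℝ) (η : E4 → Fin N → Fin 4 → Fin 4 → ℝ) (y : E4)
    (r : Fin N) (l m n : Fin 4) : ℝ :=
  pd l (fun z => η z r m n) y + ∑ t, B y l r t * η y t m n

/-- `d_B η = 0` at `y`. -/
def ClosedAt (B : E4 → Fin 4 → Matrix (Fin N) (Fin N) ℝ) (η : E4 → Fin N → Fin 4 → Fin 4 → ℝ)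
    (y : E4) : Prop :=
  ∀ (r : Fin N) (l m n : Fin 4), dcov B η y r l m n + dcov B η y r m n l + dcov B η y r n l m = 0

/-- `G ∧ F_c = 0` for `c = 1, 2, 3`: the curvature of `B` is anti-self-dual at `y` for the
conformal structure defined by `A`. -/
def AntiSelfDualAt (A : E4 → Fin 4 → R3) (B : E4 → Fin 4 → Matrix (Fin N) (Fin N) ℝ) (y : E4) :
    Prop :=
  ∀ (r t : Fin N) (c : Fin 3), wedge (mcurv B y r t) (cmp (curv A y) c) = 0

/-- The vector density of the 3-form `∑_r ∑ ε_abc s_(r,a) ∇ s_(r,b) ∧ F_c`. -/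
def vecL (A : E4 → Fin 4 → R3) (B : E4 → Fin 4 → Matrix (Fin N) (Fin N) ℝ) (s : E4 → Fin N → R3)
    (y : E4) (l : Fin 4) : ℝ :=
  ∑ r, trip (s y r) (Pi.single l 1) (covL A B s y r) (curv A y)

end Local

variable {X : Type} [TopologicalSpace X] [ChartedSpace E4 X] [IsManifold (𝓡 4) ∞ X]

/-- A real vector bundle `L` of rank `N` over `X` with fibre metric and metric connection, in
orthonormal frames over the charts of `P`: smooth transition matrices `h i j` with values in
`O(N)`, skew connection forms `B i`. -/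
structure Coef (P : Bundle X) (N : ℕ) where
  /-- transition matrices -/
  h : P.ι → P.ι → E4 → Matrix (Fin N) (Fin N) ℝ
  h_smooth : ∀ i j r t, ContDiffOn ℝ ∞ (fun y => h i j y r t) (P.ov i j)
  h_mem : ∀ i j, ∀ y ∈ P.ov i j, h i j y ∈ Matrix.orthogonalGroup (Fin N) ℝ
  h_cocycle : ∀ i j k, ∀ y ∈ (P.c k).target ∩ (P.c k).symm ⁻¹' ((P.c i).source ∩ (P.c j).source),
    h i j (P.tr j k y) * h j k y = h i k y
  /-- connection forms -/
  B : P.ι → E4 → Fin 4 → Matrix (Fin N) (Fin N) ℝ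
  B_smooth : ∀ i m r t, ContDiffOn ℝ ∞ (fun y => B i y m r t) (P.c i).target
  B_skew : ∀ i, ∀ y ∈ (P.c i).target, ∀ m r t, B i y m r t = -B i y m t r
  /-- `dh + B_i h = h B_j` -/
  compat : ∀ i j, ∀ y ∈ P.ov i j, ∀ (m : Fin 4) (r t : Fin N),
    pd m (fun z => h i j z r t) y +
      ((∑ n, (pd m (P.tr i j) y) n • B i (P.tr i j y) n) * h i j y) r t = (h i j y * B j y m) r t

/-- The curvature of `L` is anti-self-dual (for the conformal structure and orientation defined
by the definite connection of `P`). -/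
def Coef.AntiSelfDual {P : Bundle X} {N : ℕ} (L : Coef P N) : Prop :=
  ∀ i, ∀ y ∈ (P.c i).target, AntiSelfDualAt (P.A i) (L.B i) y

/-- A smooth section of `L ⊗ E`: in the `i`-th trivialisation an `N`-tuple of functions with
values in `ℝ³`. -/
structure Sect (P : Bundle X) {N : ℕ} (L : Coef P N) where
  /-- local representatives -/
  s : P.ι → E4 → Fin N → R3
  smooth : ∀ i, ContDiffOn ℝ ∞ (s i) (P.c i).target
  compat : ∀ i j, ∀ y ∈ P.ov i j, ∀ r,
    s i (P.tr i j y) r = ∑ t, L.h i j y r t • (P.g i j y).mulVec (s j y t)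

/-- The `L`-valued 2-form `⟨s, F_A⟩` (a general `L`-valued section of `Λ⁺_A`) is closed:
`d_B ⟨s, F_A⟩ = 0`. -/
def Sect.Closed {P : Bundle X} {N : ℕ} {L : Coef P N} (φ : Sect P L) : Prop :=
  ∀ i, ∀ y ∈ (P.c i).target, ClosedAt (L.B i) (formL (P.A i) (φ.s i)) y

end

end Pool.Agent.Helper8.DA
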