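import Pool.Agent.Helper8.DA.Defs
import Pool.Agent.Helper98.DA.VecTr
import Pool.Agent.Helper50.DA.DivVecL
import Pool.Agent.Helper56.DA.Constr
import Pool.Agent.Helper43.DA.Sm

set_option autoImplicit false

open scoped Manifold ContDiff

namespace Pool.Agent.Helper8.DA

open Pool.Agent.Helper8.DC

noncomputable section

variable {X : Type} [TopologicalSpace X] [ChartedSpace E4 X] [IsManifold (𝓡 4) ∞ X]

/-- The vector density as a map `E4 → E4`. -/
def wL (P : Bundle X) {N : ℕ} (L : Coef P N) (φ : Sect P L) (i : P.ι) (y : E4) : E4 :=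
  WithLp.toLp 2 (vecL (P.A i) (L.B i) (φ.s i) y)

theorem wL_comp_smooth (P : Bundle X) {N : ℕ} (L : Coef P N) (φ : Sect P L) (i : P.ι)
    (l : Fin 4) :
    ContDiffOn ℝ ∞ (fun y => vecL (P.A i) (L.B i) (φ.s i) y l) (P.c i).target :=
  Pool.Agent.Helper43.DA.vecL_smooth (P.c i).open_target (P.A_smooth i) (L.B_smooth i) (φ.smooth i) l

theorem wL_smooth (P : Bundle X) {N : ℕ} (L : Coef P N) (φ : Sect P L) (i : P.ι) :
    ContDiffOn ℝ ∞ (wL P L φ i) (P.c i).target := by
  rw [contDiffOn_euclidean]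
  intro l
  exact wL_comp_smooth P L φ i l

theorem trace_wL (P : Bundle X) {N : ℕ} (L : Coef P N) (hL : L.AntiSelfDual) (φ : Sect P L)
    (i : P.ι) (y : E4) (hy : y ∈ (P.c i).target) :
    LinearMap.trace ℝ E4 (fderiv ℝ (wL P L φ i) y : E4 →ₗ[ℝ] E4) =
      ∑ r, (quad (covL (P.A i) (L.B i) (φ.s i) y r) (curv (P.A i) y) +
        rest (φ.s i y r) (curv (P.A i) y)) := by
  rw [trace_eq, ← Pool.Agent.Helper50.DA.div_vecL (P.A i) (L.B i) (φ.s i) _ (P.c i).open_target
    (P.A_smooth i) (L.B_smooth i) (φ.smooth i) y hy (L.B_skew i y hy) (hL i y hy)]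
  refine Finset.sum_congr rfl fun l _ => ?_
  have hw : DifferentiableAt ℝ (wL P L φ i) y :=
    ((wL_smooth P L φ i).contDiffAt ((P.c i).open_target.mem_nhds hy)).differentiableAt (by simp)
  have := (EuclideanSpace.proj (𝕜 := ℝ) l : E4 →L[ℝ] ℝ).hasFDerivAt.comp y hw.hasFDerivAt
  unfold pd
  have h2 : (fun z => vecL (P.A i) (L.B i) (φ.s i) z l) =
      (EuclideanSpace.proj (𝕜 := ℝ) l : E4 →L[ℝ] ℝ) ∘ (wL P L φ i) := by
    funext z; rfl
  rw [h2, this.fderiv]
  rfl

/-- **Theorem.** Let `X` be a closed 4-manifold with a positive definite `SO(3)`-connection whose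
curvature matrix satisfies `2 tr M² ≤ (tr M)²`. Let `L` be a vector bundle with fibre metric and
metric connection whose curvature is anti-self-dual. Then no nonzero closed 2-form with values in
`L` is a section of `Λ⁺_A`. -/
theorem main [T2Space X] [CompactSpace X] (P : Bundle X) (hP : P.PositiveDefinite)
    (hpin : P.IsPinched) {N : ℕ} (L : Coef P N) (hL : L.AntiSelfDual) (φ : Sect P L)
    (hφ : φ.Closed) :
    ∀ i, ∀ y ∈ (P.c i).target, φ.s i y = 0 := by
  have hq : ∀ i, ∀ y ∈ (P.c i).target, ∀ r,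
      0 ≤ quad (covL (P.A i) (L.B i) (φ.s i) y r) (curv (P.A i) y) := by
    intro i y hy r
    exact quad_nonneg _ (skew_curv _ _) (hP i y hy) (hpin i y hy) _
      (Pool.Agent.Helper56.DA.constrL (P.A i) (L.B i) (φ.s i) _ (P.c i).open_target
        (P.A_smooth i) (φ.smooth i) y hy (hφ i y hy) r)
  have hr : ∀ i, ∀ y ∈ (P.c i).target, ∀ r, φ.s i y r ≠ 0 →
      0 < rest (φ.s i y r) (curv (P.A i) y) := by
    intro i y hy r h
    exact rest_pos _ (skew_curv _ _) (hP i y hy) _ h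
  have hr0 : ∀ i, ∀ y ∈ (P.c i).target, ∀ r, 0 ≤ rest (φ.s i y r) (curv (P.A i) y) := by
    intro i y hy r
    by_cases h : φ.s i y r = 0
    · rw [h]; simp [rest]
    · exact (hr i y hy r h).le
  have hnn : ∀ i, ∀ y ∈ (P.c i).target,
      0 ≤ LinearMap.trace ℝ E4 (fderiv ℝ (wL P L φ i) y : E4 →ₗ[ℝ] E4) := by
    intro i y hy
    rw [trace_wL P L hL φ i y hy]
    exact Finset.sum_nonneg fun r _ => add_nonneg (hq i y hy r) (hr0 i y hy r)
  have hcompat : ∀ i j, ∀ y ∈ (P.c j).target, (P.c j).symm y ∈ (P.c i).source →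
      0 < (fderiv ℝ (P.c i ∘ (P.c j).symm) y).det ∧
      fderiv ℝ (P.c i ∘ (P.c j).symm) y (wL P L φ j y)
        = (fderiv ℝ (P.c i ∘ (P.c j).symm) y).det • wL P L φ i (P.c i ((P.c j).symm y)) := by
    intro i j y hy hy2
    have hyo : y ∈ P.ov i j := ⟨hy, hy2⟩
    rw [det_eq]
    refine ⟨det_pos P hP i j y hyo, ?_⟩
    have hlin : fderiv ℝ (P.c i ∘ (P.c j).symm) y (wL P L φ j y) =
        ∑ l, vecL (P.A j) (L.B j) (φ.s j) y l • pd l (P.tr i j) y := by
      have h1 : wL P L φ j y =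
          ∑ l, vecL (P.A j) (L.B j) (φ.s j) y l • EuclideanSpace.single l (1 : ℝ) := by
        ext k
        simp [wL, Finset.sum_apply, Pi.single_apply]
      rw [h1, map_sum]
      refine Finset.sum_congr rfl fun l _ => ?_
      rw [map_smul]
      rfl
    rw [hlin]
    ext n
    have := Pool.Agent.Helper98.DA.vecL_tr P L φ i j y hyo n
    simp only [PiLp.smul_apply, smul_eq_mul, wL, WithLp.ofLp_sum, Finset.sum_apply]
    refine Eq.trans ?_ this
    refine Finset.sum_congr rfl fun l _ => ?_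
    simp only [jac]
    rw [mul_comm]
  have hz := Pool.Agent.Helper64.DC.stokes P.c P.c_mem P.cover (wL P L φ)
    (fun i => (wL_smooth P L φ i).of_le (by simp)) hcompat hnn
  intro i y hy
  have h0 := hz i y hy
  rw [trace_wL P L hL φ i y hy] at h0
  funext r
  by_contra hne
  have hpos : 0 < ∑ r, (quad (covL (P.A i) (L.B i) (φ.s i) y r) (curv (P.A i) y) +
        rest (φ.s i y r) (curv (P.A i) y)) := by
    refine Finset.sum_pos' (fun r _ => add_nonneg (hq i y hy r) (hr0 i y hy r))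
      ⟨r, Finset.mem_univ r, ?_⟩
    exact add_pos_of_nonneg_of_pos (hq i y hy r) (hr i y hy r hne)
  exact absurd h0 hpos.ne'

end

end Pool.Agent.Helper8.DA
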